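import Pool.Agent.NE.Stmts

/-!
# NE ETP: product of 1 + et
-/

set_option autoImplicit false

open Finset Filter Topology

noncomputable section

namespace Pool.Agent.NE.H83

theorem etp : EtpStmt := by
  intro t T
  have h0 : ∀ i, 0 < et i := fun i => by
    unfold et
    positivity
  have key : ∀ r : ℕ, ∑ i ∈ Ico t (t + r), et i = (1 / 2 : ℝ) ^ (t + 2) - (1 / 2 : ℝ) ^ (t + r + 2) ∧
      ∏ i ∈ Ico t (t + r), (1 + et i) ≤
        1 + 2 * ((1 / 2 : ℝ) ^ (t + 2) - (1 / 2 : ℝ) ^ (t + r + 2)) ∧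
      1 ≤ ∏ i ∈ Ico t (t + r), (1 + et i) := by
    intro r
    induction r with
    | zero => simp
    | succ r ih =>
      obtain ⟨h1, h2, h3⟩ := ih
      rw [← Nat.add_assoc, Finset.sum_Ico_succ_top (by omega), Finset.prod_Ico_succ_top (by omega)]
      have e1 : et (t + r) = (1 / 2 : ℝ) ^ (t + r + 2) / 2 := by
        unfold et
        ring
      have e2 : (1 / 2 : ℝ) ^ (t + r + 1 + 2) = (1 / 2 : ℝ) ^ (t + r + 2) / 2 := by
        ring
      have h4 : (1 / 2 : ℝ) ^ (t + 2) ≤ 1 / 2 := by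
        calc (1 / 2 : ℝ) ^ (t + 2) ≤ (1 / 2 : ℝ) ^ 1 :=
              pow_le_pow_of_le_one (by norm_num) (by norm_num) (by omega)
          _ = 1 / 2 := pow_one _
      have h5 : (0 : ℝ) < (1 / 2 : ℝ) ^ (t + r + 2) := by positivity
      rw [h1, e1, e2]
      refine ⟨by ring, ?_, ?_⟩
      · refine (mul_le_mul_of_nonneg_right h2 (by positivity)).trans ?_
        nlinarith [mul_nonneg h5.le (sub_nonneg.2 h4), mul_pos h5 h5]
      · nlinarith [mul_nonneg (sub_nonneg.2 h3) h5.le]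
  rcases le_total t T with h | h
  · obtain ⟨r, rfl⟩ := Nat.exists_eq_add_of_le h
    obtain ⟨h1, h2, h3⟩ := key r
    have h5 : (0 : ℝ) < (1 / 2 : ℝ) ^ (t + r + 2) := by positivity
    refine ⟨by rw [h1]; linarith, h2.trans ?_, h3⟩
    have e3 : (1 / 2 : ℝ) ^ (t + 2) = (1 / 2 : ℝ) ^ (t + 1) / 2 := by ring
    rw [e3]
    linarith
  · rw [Finset.Ico_eq_empty_of_le h]
    simp only [Finset.sum_empty, Finset.prod_empty, le_refl, and_true, le_add_iff_nonneg_right]
    constructor <;> positivity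

end Pool.Agent.NE.H83
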