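import Pool.Agent.NE.Stmts

/-!
# NE SCO: composition of averages
-/

set_option autoImplicit false

open Finset Filter Topology

noncomputable section

namespace Pool.Agent.NE.H83

theorem sco (hA : AncStmt) (_ : NnbStmt) (hF : TrfStmt) (hM : MsiStmt) : ScoStmt := by
  intro N p s σ θ hT Z _ _ L n t T i hn hnt htT hi
  obtain ⟨hσ, -, -⟩ := hF N p s σ θ hT
  obtain ⟨-, hA2, -, hA4⟩ := hA σ (nn N T) (fun i h1 _ => hσ i h1)
  obtain ⟨hM1, hM2, hM3⟩ := hM N p s σ θ hT
  have hθ : ∀ k, k < nn N t → 0 < θ t k := by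
    intro k hk
    have h1 := hM2 (nn N t) t k (by omega) le_rfl hk
    rwa [hM3 t t k le_rfl hk] at h1
  have h2 : ∀ k ∈ (range (nn N t)).filter (fun k => anc σ n k = i),
      (θ t k / ms N σ θ n t i) • S N σ θ L (nn N t) T k =
        (ms N σ θ n t i)⁻¹ • ∑ j ∈ (range (nn N T)).filter (fun j => anc σ n j = i) with
          anc σ (nn N t) j = k, θ T j • L T j := by
    intro k hk
    rw [Finset.mem_filter, Finset.mem_range] at hk
    unfold S
    rw [hM3 t T k htT hk.1, smul_smul, div_mul_eq_mul_div, mul_inv_cancel₀ (hθ k hk.1).ne',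
      one_div]
    congr 1
    refine Finset.sum_congr ?_ fun _ _ => rfl
    ext j
    simp only [Finset.mem_filter, Finset.mem_range]
    constructor
    · rintro ⟨h3, h4⟩
      refine ⟨⟨h3, ?_⟩, h4⟩
      rw [← hA4 n (nn N t) j hn hnt h3, h4]
      exact hk.2
    · rintro ⟨⟨h3, _⟩, h4⟩
      exact ⟨h3, h4⟩
  rw [Finset.sum_congr rfl h2, ← Finset.smul_sum, Finset.sum_fiberwise_of_maps_to]
  · unfold S
    rw [hM1 n t T i hn hnt htT hi]
  · intro j hj
    rw [Finset.mem_filter, Finset.mem_range] at hj ⊢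
    refine ⟨(hA2 (nn N t) j (by omega) hj.1).1, ?_⟩
    rw [hA4 n (nn N t) j hn hnt hj.1]
    exact hj.2

end Pool.Agent.NE.H83
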